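import Mathlib
import Pool.Agent.R292.CovDim

/-!
# Sofic mean dimension of infinite groups acting on finite-dimensional spaces

For every infinite group `G`, every sofic approximation sequence `Σ` of `G` and every continuous
action of `G` on a finite-dimensional compact metric space `X`, `mdim_Σ(X, G) ≤ 0`.
-/

set_option autoImplicit false

namespace Pool.Agent.Results.MP_8bee83_an.FiniteDimensional

open Set Filter Topology
open Pool.Agent.R292.CovDim

universe u v

/-- Lebesgue covering dimension, with values in the extended reals: `-∞` for the empty space,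
otherwise the least `n` such that every finite open cover has a finite open refinement of order
at most `n + 1` (and `+∞` if there is no such `n`). -/
noncomputable def covDim (P : Type u) [TopologicalSpace P] : EReal := by
  classical
  exact if IsEmpty P then ⊥ else ⨅ (n : ℕ) (_ : DimLE P n), ((n : ℝ) : EReal)

/-- `Widim_ε(Z, ρ)`: the least dimension of a compact metrizable space `P` with a continuous map
`f : Z → P` such that `f z = f z'` implies `ρ(z, z') < ε`. -/
noncomputable def widim (Z : Type u) [TopologicalSpace Z] (ρ : Z → Z → ℝ) (ε : ℝ) : EReal :=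
  ⨅ (P : Type u) (_ : TopologicalSpace P) (_ : CompactSpace P)
    (_ : TopologicalSpace.MetrizableSpace P) (f : Z → P)
    (_ : Continuous f ∧ ∀ z z', f z = f z' → ρ z z' < ε), covDim P

/-- `ρ_2(x, y) = ((1/d) ∑ ρ(x_l, y_l)²)^{1/2}`. -/
noncomputable def rho2 {X : Type u} [MetricSpace X] {d : ℕ} (x y : Fin d → X) : ℝ :=
  Real.sqrt ((∑ l, dist (x l) (y l) ^ 2) / d)

/-- `Map(ρ, F, δ, σ)`. -/
def MapSet {G : Type v} {X : Type u} [Group G] [MetricSpace X] [MulAction G X] (F : Finset G)
    (δ : ℝ) {d : ℕ} (σ : G → Equiv.Perm (Fin d)) : Set (Fin d → X) :=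
  {φ | ∀ s ∈ F, rho2 (φ ∘ σ s) (fun l => s • φ l) ≤ δ}

/-- Sofic approximation sequences. -/
structure IsSoficApprox (G : Type v) [Group G] (d : ℕ → ℕ)
    (σ : (i : ℕ) → G → Equiv.Perm (Fin (d i))) : Prop where
  mult : ∀ s t : G, Tendsto (fun i => (({k | σ i (s * t) k = σ i s (σ i t k)} :
    Set (Fin (d i))).ncard : ℝ) / d i) atTop (𝓝 1)
  free : ∀ s t : G, s ≠ t → Tendsto (fun i => (({k | σ i s k ≠ σ i t k} :
    Set (Fin (d i))).ncard : ℝ) / d i) atTop (𝓝 1)
  size : Tendsto d atTop atTop

/-- The sofic mean dimension `mdim_Σ(X, G)`; here `ρ_∞` is the sup metric on `X^d`, which is the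
standard distance on the product `Fin d → X`. -/
noncomputable def mdim (G : Type v) (X : Type u) [Group G] [MetricSpace X] [MulAction G X]
    (d : ℕ → ℕ) (σ : (i : ℕ) → G → Equiv.Perm (Fin (d i))) : EReal :=
  ⨆ (ε : ℝ) (_ : 0 < ε), ⨅ (F : Finset G) (δ : ℝ) (_ : 0 < δ),
    limsup (fun i => widim (MapSet (X := X) F δ (σ i))
      (fun φ φ' => dist (φ : Fin (d i) → X) (φ' : Fin (d i) → X)) ε /
        ((d i : ℝ) : EReal)) atTop

/-! ### The deterministic bound -/

section bound

variable {G : Type v} {X : Type u} [Group G] [MetricSpace X] [MulAction G X]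

lemma bad_card {F : Finset G} {δ : ℝ} (hδ : 0 < δ) {d : ℕ} {σ : G → Equiv.Perm (Fin d)}
    {φ : Fin d → X} (hφ : φ ∈ MapSet F δ σ) {s : G} (hs : s ∈ F) :
    ((Finset.univ.filter fun l => Real.sqrt δ < dist (φ (σ s l)) (s • φ l)).card : ℝ) ≤ δ * d := by
  classical
  rcases Nat.eq_zero_or_pos d with hd | hd
  · subst hd
    simp
  have hd' : (0 : ℝ) < d := by exact_mod_cast hd
  have h1 := hφ s hs
  unfold rho2 at h1
  rw [Real.sqrt_le_left hδ.le, div_le_iff₀ hd'] at h1
  have h2 : ((Finset.univ.filter fun l => Real.sqrt δ < dist (φ (σ s l)) (s • φ l)).card : ℝ) * δ ≤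
      ∑ l, dist ((φ ∘ σ s) l) (s • φ l) ^ 2 := by
    calc _ = ∑ _l ∈ Finset.univ.filter fun l => Real.sqrt δ < dist (φ (σ s l)) (s • φ l), δ := by
          rw [Finset.sum_const, nsmul_eq_mul]
      _ ≤ ∑ l ∈ Finset.univ.filter fun l => Real.sqrt δ < dist (φ (σ s l)) (s • φ l),
          dist ((φ ∘ σ s) l) (s • φ l) ^ 2 := by
          refine Finset.sum_le_sum fun l hl => ?_
          have h3 := (Finset.mem_filter.1 hl).2
          have h4 : Real.sqrt δ ^ 2 = δ := Real.sq_sqrt hδ.le
          rw [← h4]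
          exact pow_le_pow_left₀ (Real.sqrt_nonneg _) h3.le 2
      _ ≤ _ := Finset.sum_le_sum_of_subset_of_nonneg (Finset.filter_subset _ _)
          fun _ _ _ => by positivity
  have h3 := h2.trans h1
  have h4 : ((Finset.univ.filter fun l => Real.sqrt δ < dist (φ (σ s l)) (s • φ l)).card : ℝ) * δ ≤
      (δ * d) * δ := by
    refine h3.trans (le_of_eq (by ring))
  exact le_of_mul_le_mul_right h4 hδ

lemma widim_le [CompactSpace X] [ContinuousConstSMul G X] {n : ℕ} (hX : DimLE X n)
    (F : Finset G) {δ ε K : ℝ} (hδ : 0 < δ) (hδε : 2 * Real.sqrt δ < ε) (hK1 : 1 ≤ K)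
    (hK : ∀ x y : X, dist x y ≤ K) {N : ℕ} (ψ : Fin N → X)
    (hψ : ∀ x y : X, (∀ i, dist x (ψ i) = dist y (ψ i)) → dist x y < ε) {d : ℕ}
    (σ : G → Equiv.Perm (Fin d)) (D : Finset (Fin d)) (r : Fin d → Fin d) (g : Fin d → G)
    (hD : ∀ v, v ∉ D → r v ∈ D ∧ g v ∈ F ∧ σ (g v) (r v) = v) :
    widim (MapSet (X := X) F δ σ) (fun φ φ' => dist (φ : Fin d → X) (φ' : Fin d → X)) ε ≤
      (((D.card * (n + 1) + ⌊(F.card : ℝ) * (δ * d)⌋₊ * (N + 1) : ℕ) : ℝ) : EReal) := by
  classical
  have hε : 0 < ε := lt_of_le_of_lt (by positivity) hδε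
  set m : ℕ := ⌊(F.card : ℝ) * (δ * d)⌋₊ with hm
  let tt : (Fin d → X) → Fin d → ℝ := fun φ v =>
    if v ∈ D then 0 else max 0 (dist (φ v) (g v • φ (r v)) - Real.sqrt δ)
  let ww : (Fin d → X) → Fin d → Option (Fin N) → ℝ := fun φ v o =>
    o.elim (tt φ v) (fun i => tt φ v * dist (φ v) (ψ i))
  have htt0 : ∀ φ v, 0 ≤ tt φ v := by
    intro φ v
    simp only [tt]
    split_ifs
    · exact le_rfl
    · exact le_max_left _ _
  have httK : ∀ φ v, tt φ v ≤ K := by
    intro φ v
    simp only [tt]
    split_ifs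
    · linarith
    · refine max_le (by linarith) ?_
      have := hK (φ v) (g v • φ (r v))
      have h2 := Real.sqrt_nonneg δ
      linarith
  have httc : ∀ v, Continuous fun φ : Fin d → X => tt φ v := by
    intro v
    by_cases hv : v ∈ D
    · simp only [tt, if_pos hv]
      exact continuous_const
    · simp only [tt, if_neg hv]
      exact continuous_const.max (((continuous_apply v).dist
        ((continuous_apply (r v)).const_smul (g v))).sub continuous_const)
  -- the target space
  let A : Finset (Fin d) → Set (({v // v ∈ D} → X) × (Fin d → Option (Fin N) → ℝ)) := fun S =>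
    univ ×ˢ Set.pi univ (fun v => if v ∈ S then Set.pi univ (fun _ => Set.Icc 0 (K ^ 2)) else {0})
  let P : Set (({v // v ∈ D} → X) × (Fin d → Option (Fin N) → ℝ)) :=
    ⋃ S ∈ (Finset.univ : Finset (Fin d)).powerset.filter (fun S => S.card ≤ m), A S
  have hAc : ∀ S, IsCompact (A S) := by
    intro S
    refine isCompact_univ.prod (isCompact_univ_pi fun v => ?_)
    split_ifs
    · exact isCompact_univ_pi fun _ => isCompact_Icc
    · exact isCompact_singleton
  have hPc : IsCompact P := Finset.isCompact_biUnion _ fun S _ => hAc S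
  have hcolA : ∀ S : Finset (Fin d), S.card ≤ m →
      Col (A S) (D.card * (n + 1) + m * (N + 1)) := by
    intro S hS
    have h1 : Col (univ : Set ({v // v ∈ D} → X)) (∑ _v : {v // v ∈ D}, (n + 1)) := by
      have := Col.pi (Q := {v // v ∈ D}) (fun _ => (univ : Set X)) (fun _ => n + 1)
        (fun _ => col_of_dimLE hX)
      rwa [Set.pi_univ] at this
    have h2 : Col (Set.pi univ (fun v : Fin d => if v ∈ S then
        (Set.pi univ (fun _ => Set.Icc 0 (K ^ 2)) : Set (Option (Fin N) → ℝ)) else {0}))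
        (∑ v : Fin d, if v ∈ S then (N + 1) else 0) := by
      refine Col.pi _ _ fun v => ?_
      by_cases hv : v ∈ S
      · simp only [if_pos hv]
        have := Col.pi (Q := Option (Fin N)) (fun _ => Set.Icc (0 : ℝ) (K ^ 2)) (fun _ => 1)
          (fun _ => Col.Icc _ _)
        refine this.mono le_rfl ?_
        simp
      · simp only [if_neg hv]
        exact Col.singleton _
    refine (h1.prod h2).mono le_rfl ?_
    rw [Finset.sum_const, Finset.card_univ, Fintype.card_coe, smul_eq_mul, Finset.sum_ite_mem,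
      Finset.univ_inter, Finset.sum_const, smul_eq_mul]
    gcongr
  have hcolP : Col P (D.card * (n + 1) + m * (N + 1)) := by
    refine Col.biUnion _ _ fun S hS => hcolA S (Finset.mem_filter.1 hS).2
  have hdimP : DimLE P (D.card * (n + 1) + m * (N + 1)) := dimLE_of_col hPc hcolP
  -- the map
  have hmem : ∀ φ ∈ MapSet (X := X) F δ σ,
      ((fun v : {v // v ∈ D} => φ v, ww φ) :
        ({v // v ∈ D} → X) × (Fin d → Option (Fin N) → ℝ)) ∈ P := by
    intro φ hφ
    refine mem_iUnion₂.2 ⟨Finset.univ.filter fun v => tt φ v ≠ 0, ?_, mem_univ _, ?_⟩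
    · rw [Finset.mem_filter]
      refine ⟨Finset.mem_powerset.2 (Finset.subset_univ _), Nat.le_floor ?_⟩
      have hinj : (Finset.univ.filter fun v => tt φ v ≠ 0).card ≤
          (F.sigma fun s => Finset.univ.filter fun l =>
            Real.sqrt δ < dist (φ (σ s l)) (s • φ l)).card := by
        have hnotD : ∀ v, tt φ v ≠ 0 → v ∉ D ∧ Real.sqrt δ < dist (φ v) (g v • φ (r v)) := by
          intro v hv
          simp only [tt] at hv
          split_ifs at hv with h
          · exact absurd rfl hv
          · refine ⟨h, ?_⟩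
            by_contra hcon
            push Not at hcon
            exact hv (max_eq_left (by linarith))
        refine Finset.card_le_card_of_injOn (fun v => (⟨g v, r v⟩ : (_ : G) × Fin d)) ?_ ?_
        · intro v hv
          have hv' : tt φ v ≠ 0 := by simpa using hv
          obtain ⟨h1, h2⟩ := hnotD v hv'
          obtain ⟨h3, h4, h5⟩ := hD v h1
          simp only [Finset.coe_sigma, Finset.coe_filter, Finset.mem_univ, true_and,
            Set.mem_sigma_iff, Finset.mem_coe, Set.mem_ofPred_eq]
          exact ⟨h4, by rw [h5]; exact h2⟩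
        · intro v hv v' hv' hvv
          have e1 : tt φ v ≠ 0 := by simpa using hv
          have e2 : tt φ v' ≠ 0 := by simpa using hv'
          have e3 := (hD v (hnotD v e1).1).2.2
          have e4 := (hD v' (hnotD v' e2).1).2.2
          simp only [Sigma.mk.injEq, heq_eq_eq] at hvv
          rw [← e3, ← e4, hvv.1, hvv.2]
      have hsum : ((F.sigma fun s => Finset.univ.filter fun l =>
            Real.sqrt δ < dist (φ (σ s l)) (s • φ l)).card : ℝ) ≤ F.card * (δ * d) := by
        rw [Finset.card_sigma]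
        push_cast
        calc _ ≤ ∑ _s ∈ F, (δ * d) := Finset.sum_le_sum fun s hs => bad_card hδ hφ hs
          _ = _ := by rw [Finset.sum_const, nsmul_eq_mul]
      exact le_trans (by exact_mod_cast hinj) hsum
    · intro v _
      by_cases hv : tt φ v = 0
      · simp only [Finset.mem_filter, Finset.mem_univ, true_and, hv, ne_eq, not_true_eq_false,
          if_false, mem_singleton_iff]
        funext o
        rcases o with _ | i
        · exact hv
        · simp only [ww, Option.elim_some, hv, zero_mul, Pi.zero_apply]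
      · simp only [Finset.mem_filter, Finset.mem_univ, true_and, hv, ne_eq, not_false_eq_true,
          if_true]
        intro o _
        have h0 := htt0 φ v
        have h1 := httK φ v
        rcases o with _ | i
        · simp only [ww, Option.elim_none]
          exact ⟨h0, h1.trans (by nlinarith)⟩
        · simp only [ww, Option.elim_some]
          have h2 := hK (φ v) (ψ i)
          have h3 : 0 ≤ dist (φ v) (ψ i) := dist_nonneg
          exact ⟨mul_nonneg h0 h3, by nlinarith⟩
  let f : MapSet (X := X) F δ σ → P := fun φ =>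
    ⟨(fun v : {v // v ∈ D} => φ.1 v, ww φ.1), hmem φ.1 φ.2⟩
  have hfc : Continuous f := by
    refine Continuous.subtype_mk ?_ _
    refine Continuous.prodMk ?_ ?_
    · exact continuous_pi fun v => (continuous_apply v.1).comp continuous_subtype_val
    · refine continuous_pi fun v => continuous_pi fun o => ?_
      rcases o with _ | i
      · exact (httc v).comp continuous_subtype_val
      · simp only [ww, Option.elim_some]
        exact ((httc v).comp continuous_subtype_val).mul
          (((continuous_apply v).comp continuous_subtype_val).dist continuous_const)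
  have hfe : ∀ φ φ' : MapSet (X := X) F δ σ, f φ = f φ' →
      dist (φ : Fin d → X) (φ' : Fin d → X) < ε := by
    intro φ φ' hff
    have h1 : ∀ v, v ∈ D → φ.1 v = φ'.1 v := by
      intro v hv
      exact congrFun (congrArg (fun p : P => p.1.1) hff) ⟨v, hv⟩
    have h2 : ∀ v o, ww φ.1 v o = ww φ'.1 v o := by
      intro v o
      exact congrFun (congrFun (congrArg (fun p : P => p.1.2) hff) v) o
    rw [dist_pi_lt_iff hε]
    intro v
    by_cases hv : v ∈ D
    · rw [h1 v hv, dist_self]
      exact hε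
    · have h3 : tt φ.1 v = tt φ'.1 v := h2 v none
      by_cases ht : tt φ.1 v = 0
      · have e1 : dist (φ.1 v) (g v • φ.1 (r v)) ≤ Real.sqrt δ := by
          simp only [tt, if_neg hv] at ht
          have := le_max_right 0 (dist (φ.1 v) (g v • φ.1 (r v)) - Real.sqrt δ)
          rw [ht] at this
          linarith
        have e2 : dist (φ'.1 v) (g v • φ'.1 (r v)) ≤ Real.sqrt δ := by
          rw [h3] at ht
          simp only [tt, if_neg hv] at ht
          have := le_max_right 0 (dist (φ'.1 v) (g v • φ'.1 (r v)) - Real.sqrt δ)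
          rw [ht] at this
          linarith
        rw [← h1 (r v) (hD v hv).1] at e2
        have e3 := dist_triangle_right (φ.1 v) (φ'.1 v) (g v • φ.1 (r v))
        linarith
      · refine hψ _ _ fun i => ?_
        have h4 : tt φ.1 v * dist (φ.1 v) (ψ i) = tt φ'.1 v * dist (φ'.1 v) (ψ i) :=
          h2 v (some i)
        rw [← h3] at h4
        exact mul_left_cancel₀ ht h4
  have hPcs : CompactSpace P := isCompact_iff_compactSpace.1 hPc
  have hle : covDim P ≤ (((D.card * (n + 1) + m * (N + 1) : ℕ) : ℝ) : EReal) := by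
    unfold covDim
    split_ifs
    · exact bot_le
    · exact iInf₂_le _ hdimP
  unfold widim
  refine le_trans ?_ hle
  exact iInf_le_of_le P (iInf_le_of_le inferInstance (iInf_le_of_le hPcs
    (iInf_le_of_le inferInstance (iInf_le_of_le f (iInf_le _ ⟨hfc, hfe⟩)))))

end bound

/-! ### Dominating sets -/

lemma exists_dom {d L M : ℕ} (hd : 0 < d) (T : Fin d → Finset (Fin d)) (A : Finset (Fin d))
    (hT : ∀ v ∈ A, M ≤ (T v).card) : ∃ D0 : Finset (Fin d), D0.card ≤ L ∧
      (A.filter fun v => Disjoint (T v) D0).card * d ^ L ≤ d * (d - M) ^ L := by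
  classical
  by_contra hcon
  push Not at hcon
  have h1 : ∀ x : Fin L → Fin d, d * (d - M) ^ L <
      (A.filter fun v => Disjoint (T v) (Finset.univ.image x)).card * d ^ L := by
    intro x
    refine hcon _ ?_
    exact Finset.card_image_le.trans (by simp)
  have h2 : ∑ x : Fin L → Fin d,
      (A.filter fun v => Disjoint (T v) (Finset.univ.image x)).card ≤ d * (d - M) ^ L := by
    calc ∑ x : Fin L → Fin d, (A.filter fun v => Disjoint (T v) (Finset.univ.image x)).card
        = ∑ x : Fin L → Fin d, ∑ v ∈ A,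
            (if Disjoint (T v) (Finset.univ.image x) then 1 else 0) := by
          refine Finset.sum_congr rfl fun x _ => ?_
          rw [Finset.card_filter]
      _ = ∑ v ∈ A, ∑ x : Fin L → Fin d,
            (if Disjoint (T v) (Finset.univ.image x) then 1 else 0) := Finset.sum_comm
      _ ≤ ∑ _v ∈ A, (d - M) ^ L := by
          refine Finset.sum_le_sum fun v hv => ?_
          rw [← Finset.card_filter]
          have h3 : (Finset.univ.filter fun x : Fin L → Fin d =>
              Disjoint (T v) (Finset.univ.image x)) ⊆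
              Fintype.piFinset fun _ : Fin L => (T v)ᶜ := by
            intro x hx
            rw [Fintype.mem_piFinset]
            intro l
            rw [Finset.mem_compl]
            intro hl
            exact Finset.disjoint_left.1 (Finset.mem_filter.1 hx).2 hl
              (Finset.mem_image_of_mem _ (Finset.mem_univ l))
          refine (Finset.card_le_card h3).trans ?_
          rw [Fintype.card_piFinset_const, Finset.card_compl, Fintype.card_fin]
          exact Nat.pow_le_pow_left (Nat.sub_le_sub_left (hT v hv) d) L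
      _ = A.card * (d - M) ^ L := by rw [Finset.sum_const, smul_eq_mul]
      _ ≤ d * (d - M) ^ L := by
          refine Nat.mul_le_mul_right _ ?_
          exact (Finset.card_le_univ A).trans (by simp)
  have h3 : (∑ _x : Fin L → Fin d, d * (d - M) ^ L) <
      ∑ x : Fin L → Fin d,
        (A.filter fun v => Disjoint (T v) (Finset.univ.image x)).card * d ^ L := by
    refine Finset.sum_lt_sum_of_nonempty ?_ fun x _ => h1 x
    exact ⟨fun _ => ⟨0, hd⟩, Finset.mem_univ _⟩
  rw [← Finset.sum_mul, Finset.sum_const, smul_eq_mul, Finset.card_univ, Fintype.card_fun,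
    Fintype.card_fin, Fintype.card_fin] at h3
  have h4 := Nat.mul_le_mul_right (d ^ L) h2
  rw [mul_comm (d ^ L)] at h3
  rw [Finset.sum_mul] at h4
  have h5 : d * d ^ L * (d - M) ^ L = d * (d - M) ^ L * d ^ L := by ring
  rw [h5] at h3
  exact absurd h4 (not_le.2 h3)

lemma dom_real {d L M : ℕ} {η : ℝ} (hd : 0 < d) (hMd : M ≤ d) (hL : η * d ≤ L)
    (hM : Real.exp (-(M * η)) ≤ η) {c : ℕ} (hc : c * d ^ L ≤ d * (d - M) ^ L) :
    (c : ℝ) ≤ η * d := by
  have hd' : (0 : ℝ) < d := by exact_mod_cast hd
  have h1 : (c : ℝ) * (d : ℝ) ^ L ≤ d * ((d : ℝ) - M) ^ L := by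
    have : ((c * d ^ L : ℕ) : ℝ) ≤ ((d * (d - M) ^ L : ℕ) : ℝ) := by exact_mod_cast hc
    push_cast [Nat.cast_sub hMd] at this
    exact this
  have h2 : (c : ℝ) ≤ d * (1 - M / d) ^ L := by
    have e1 : (1 - (M : ℝ) / d) = (d - M) / d := by field_simp
    rw [e1, div_pow, mul_div_assoc', le_div_iff₀ (by positivity)]
    exact h1
  have h3 : (1 - (M : ℝ) / d) ^ L ≤ Real.exp (-(M * η)) := by
    have e1 : 0 ≤ 1 - (M : ℝ) / d := by
      rw [sub_nonneg, div_le_one hd']
      exact_mod_cast hMd
    calc (1 - (M : ℝ) / d) ^ L ≤ (Real.exp (-(M / d))) ^ L :=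
          pow_le_pow_left₀ e1 (Real.one_sub_le_exp_neg _) L
      _ = Real.exp (-(M / d * L)) := by
          rw [← Real.exp_nat_mul]
          congr 1
          ring
      _ ≤ Real.exp (-(M * η)) := by
          refine Real.exp_le_exp.2 (neg_le_neg ?_)
          have : (M : ℝ) / d * L = M * (L / d) := by ring
          rw [this]
          refine mul_le_mul_of_nonneg_left ?_ (Nat.cast_nonneg _)
          rw [le_div_iff₀ hd']
          exact hL
  calc (c : ℝ) ≤ d * (1 - M / d) ^ L := h2
    _ ≤ d * η := mul_le_mul_of_nonneg_left (h3.trans hM) hd'.le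
    _ = η * d := mul_comm _ _

/-- **Main theorem**: for every infinite group `G`, every sofic approximation sequence of `G` and
every continuous action of `G` on a finite-dimensional compact metric space `X`, the sofic mean
dimension is at most `0`. -/
theorem result (G : Type v) [Group G] [Countable G] [Infinite G]
    (d : ℕ → ℕ) (σ : (i : ℕ) → G → Equiv.Perm (Fin (d i))) (hσ : IsSoficApprox G d σ)
    (X : Type u) [MetricSpace X] [CompactSpace X] [MulAction G X] [ContinuousConstSMul G X]
    (hX : ∃ n : ℕ, DimLE X n) : mdim G X d σ ≤ 0 := by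
  classical
  obtain ⟨n, hn⟩ := hX
  refine iSup₂_le fun ε hε => ?_
  rw [← EReal.le_of_forall_lt_iff_le]
  intro η0 hη0'
  have hη0 : 0 < η0 := by exact_mod_cast hη0'
  -- bounded diameter
  obtain ⟨K0, hK0⟩ := Metric.isBounded_iff.1 (isCompact_univ (X := X)).isBounded
  set K : ℝ := max K0 1 with hK
  have hK1 : 1 ≤ K := le_max_right _ _
  have hKd : ∀ x y : X, dist x y ≤ K := fun x y =>
    (hK0 (mem_univ x) (mem_univ y)).trans (le_max_left _ _)
  -- the net
  obtain ⟨t, htf, ht⟩ := Metric.totallyBounded_iff.1 (isCompact_univ (X := X)).totallyBounded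
    (ε / 2) (by positivity)
  have := htf.to_subtype
  obtain ⟨N, ⟨e⟩⟩ := Finite.exists_equiv_fin t
  set ψ : Fin N → X := fun i => ((e.symm i : t) : X) with hψdef
  have hψ : ∀ x y : X, (∀ i, dist x (ψ i) = dist y (ψ i)) → dist x y < ε := by
    intro x y hxy
    obtain ⟨z, hz, hxz⟩ := mem_iUnion₂.1 (ht (mem_univ x))
    have h1 := hxy (e ⟨z, hz⟩)
    simp only [hψdef, Equiv.symm_apply_apply] at h1
    have h2 : dist x z < ε / 2 := hxz
    have h3 : dist y z < ε / 2 := h1 ▸ h2
    have := dist_triangle_right x y z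
    linarith
  -- parameters
  set η : ℝ := η0 / (12 * (n + 1)) with hη
  have hηpos : 0 < η := by positivity
  obtain ⟨M, hM⟩ : ∃ M : ℕ, Real.exp (-(M * η)) ≤ η := by
    have h1 : Tendsto (fun M : ℕ => Real.exp (-((M : ℝ) * η))) atTop (𝓝 0) :=
      Real.tendsto_exp_neg_atTop_nhds_zero.comp
        (tendsto_natCast_atTop_atTop.atTop_mul_const hηpos)
    exact (h1.eventually (eventually_le_nhds hηpos)).exists
  obtain ⟨F, hF⟩ := Infinite.exists_subset_card_eq G M
  set δ : ℝ := min (ε ^ 2 / 16) (η0 / (4 * ((M : ℝ) + 1) * (N + 1))) with hδ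
  have hδpos : 0 < δ := by positivity
  have hδε : 2 * Real.sqrt δ < ε := by
    have h1 : Real.sqrt δ ≤ Real.sqrt (ε ^ 2 / 16) := Real.sqrt_le_sqrt (min_le_left _ _)
    have h2 : Real.sqrt (ε ^ 2 / 16) = ε / 4 := by
      rw [show ε ^ 2 / 16 = (ε / 4) ^ 2 by ring, Real.sqrt_sq (by positivity)]
    linarith
  have hδM : (M : ℝ) * δ * (N + 1) ≤ η0 / 4 := by
    have h1 : δ ≤ η0 / (4 * ((M : ℝ) + 1) * (N + 1)) := min_le_right _ _
    calc (M : ℝ) * δ * (N + 1) ≤ ((M : ℝ) + 1) * (η0 / (4 * ((M : ℝ) + 1) * (N + 1))) * (N + 1) := by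
          gcongr
          linarith
      _ = η0 / 4 := by field_simp
  refine iInf_le_of_le F (iInf_le_of_le δ (iInf_le_of_le hδpos ?_))
  refine limsup_le_of_le (by isBoundedDefault) ?_
  -- eventually the bad set is small
  have hbad : ∀ᶠ i in atTop, ∀ s ∈ F, ∀ t ∈ F, s ≠ t →
      (((Finset.univ.filter fun l => σ i s l = σ i t l).card : ℕ) : ℝ) ≤
        η / ((M : ℝ) ^ 2 + 1) * d i := by
    rw [eventually_all_finset]
    intro s _
    rw [eventually_all_finset]
    intro t _
    by_cases hst : s = t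
    · exact Eventually.of_forall fun i h => absurd hst h
    have h1 := (hσ.free s t hst).eventually_const_lt
      (show 1 - η / ((M : ℝ) ^ 2 + 1) < 1 by
        have : 0 < η / ((M : ℝ) ^ 2 + 1) := by positivity
        linarith)
    filter_upwards [h1, hσ.size.eventually_gt_atTop 0] with i hi hdi _
    have hdi' : (0 : ℝ) < d i := by exact_mod_cast hdi
    rw [lt_div_iff₀ hdi'] at hi
    have h2 : ({k | σ i s k ≠ σ i t k} : Set (Fin (d i))).ncard =
        (Finset.univ.filter fun l => σ i s l ≠ σ i t l).card := by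
      rw [← Set.ncard_coe_finset]
      congr 1
      ext k
      simp
    have h3 : (Finset.univ.filter fun l => σ i s l = σ i t l).card +
        (Finset.univ.filter fun l => σ i s l ≠ σ i t l).card = d i := by
      rw [Finset.card_filter_add_card_filter_not, Finset.card_univ, Fintype.card_fin]
    have h4 : ((Finset.univ.filter fun l => σ i s l = σ i t l).card : ℝ) +
        (Finset.univ.filter fun l => σ i s l ≠ σ i t l).card = d i := by exact_mod_cast h3
    rw [h2] at hi
    linarith
  obtain ⟨d0, hd0⟩ := exists_nat_ge (4 * ((n : ℝ) + 1) / η0)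
  filter_upwards [hbad, hσ.size.eventually_gt_atTop 0, hσ.size.eventually_ge_atTop M,
    hσ.size.eventually_ge_atTop d0] with i hi hdi hMi hd0i
  have hdi' : (0 : ℝ) < d i := by exact_mod_cast hdi
  -- the dominating set
  let T : Fin (d i) → Finset (Fin (d i)) := fun v => F.image fun s => (σ i s).symm v
  let B : Finset (Fin (d i)) := Finset.univ.filter fun v =>
    ∃ s ∈ F, ∃ t ∈ F, s ≠ t ∧ (σ i s).symm v = (σ i t).symm v
  have hBcard : (B.card : ℝ) ≤ η * d i := by
    have h1 : B ⊆ ((F ×ˢ F).filter (fun p : G × G => p.1 ≠ p.2)).biUnion fun p : G × G =>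
        (Finset.univ.filter fun l => σ i p.1 l = σ i p.2 l).image (σ i p.1) := by
      intro v hv
      obtain ⟨s, hs, t, ht, hst, hv2⟩ := (Finset.mem_filter.1 hv).2
      refine Finset.mem_biUnion.2 ⟨(s, t), Finset.mem_filter.2 ⟨Finset.mk_mem_product hs ht,
        hst⟩, Finset.mem_image.2 ⟨(σ i s).symm v, ?_, by simp⟩⟩
      simp only [Finset.mem_filter, Finset.mem_univ, true_and, Equiv.apply_symm_apply]
      rw [hv2, Equiv.apply_symm_apply]
    have h2 : (B.card : ℝ) ≤ ∑ p ∈ (F ×ˢ F).filter (fun p => p.1 ≠ p.2),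
        (η / ((M : ℝ) ^ 2 + 1) * d i) := by
      have h3 : B.card ≤ ∑ p ∈ (F ×ˢ F).filter (fun p => p.1 ≠ p.2),
          (Finset.univ.filter fun l => σ i p.1 l = σ i p.2 l).card :=
        (Finset.card_le_card h1).trans (Finset.card_biUnion_le.trans
          (Finset.sum_le_sum fun p _ => Finset.card_image_le))
      have h4 : (B.card : ℝ) ≤ ∑ p ∈ (F ×ˢ F).filter (fun p => p.1 ≠ p.2),
          ((Finset.univ.filter fun l => σ i p.1 l = σ i p.2 l).card : ℝ) := by
        exact_mod_cast h3
      refine h4.trans (Finset.sum_le_sum fun p hp => ?_)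
      obtain ⟨hp1, hp2⟩ := Finset.mem_filter.1 hp
      obtain ⟨hp3, hp4⟩ := Finset.mem_product.1 hp1
      exact hi p.1 hp3 p.2 hp4 hp2
    refine h2.trans ?_
    rw [Finset.sum_const, nsmul_eq_mul]
    have h5 : (((F ×ˢ F).filter (fun p => p.1 ≠ p.2)).card : ℝ) ≤ (M : ℝ) ^ 2 := by
      have : ((F ×ˢ F).filter (fun p => p.1 ≠ p.2)).card ≤ M ^ 2 := by
        refine (Finset.card_filter_le _ _).trans ?_
        rw [Finset.card_product, hF, sq]
      exact_mod_cast this
    calc (((F ×ˢ F).filter (fun p => p.1 ≠ p.2)).card : ℝ) * (η / ((M : ℝ) ^ 2 + 1) * d i)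
        ≤ ((M : ℝ) ^ 2 + 1) * (η / ((M : ℝ) ^ 2 + 1) * d i) := by
          gcongr
          linarith
      _ = η * d i := by field_simp
  obtain ⟨D0, hD0, hunc⟩ := exists_dom (L := ⌈η * d i⌉₊) (M := M) hdi T Bᶜ (by
    intro v hv
    have hinj : Set.InjOn (fun s => (σ i s).symm v) (F : Set G) := by
      intro s hs t ht hst
      by_contra hne
      exact (Finset.mem_compl.1 hv) (Finset.mem_filter.2 ⟨Finset.mem_univ _,
        s, hs, t, ht, hne, hst⟩)
    rw [Finset.card_image_of_injOn hinj, hF])
  have hunc' := dom_real hdi hMi (Nat.le_ceil _) hM hunc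
  set U : Finset (Fin (d i)) := Bᶜ.filter fun v => Disjoint (T v) D0 with hU
  set D : Finset (Fin (d i)) := D0 ∪ (B ∪ U) with hD
  have hcover : ∀ v, ∃ p : Fin (d i) × G, v ∉ D → p.1 ∈ D ∧ p.2 ∈ F ∧ σ i p.2 p.1 = v := by
    intro v
    by_cases hv : v ∈ D
    · exact ⟨(v, 1), fun h => absurd hv h⟩
    have hvB : v ∉ B := fun h => hv (Finset.mem_union_right _ (Finset.mem_union_left _ h))
    have hvU : v ∉ U := fun h => hv (Finset.mem_union_right _ (Finset.mem_union_right _ h))
    have hnd : ¬ Disjoint (T v) D0 := fun h =>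
      hvU (Finset.mem_filter.2 ⟨Finset.mem_compl.2 hvB, h⟩)
    obtain ⟨w, hw1, hw2⟩ := Finset.not_disjoint_iff.1 hnd
    obtain ⟨s, hs, hsw⟩ := Finset.mem_image.1 hw1
    refine ⟨(w, s), fun _ => ⟨Finset.mem_union_left _ hw2, hs, ?_⟩⟩
    simp only
    rw [← hsw, Equiv.apply_symm_apply]
  choose p hp using hcover
  have hw := widim_le hn F hδpos hδε hK1 hKd ψ hψ (σ i) D (fun v => (p v).1) (fun v => (p v).2) hp
  have hDcard : (D.card : ℝ) ≤ 3 * (η * d i) + 1 := by
    have h1 : D.card ≤ D0.card + (B.card + U.card) :=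
      (Finset.card_union_le _ _).trans (Nat.add_le_add_left (Finset.card_union_le _ _) _)
    have h2 : (D.card : ℝ) ≤ D0.card + (B.card + U.card) := by exact_mod_cast h1
    have h3 : (D0.card : ℝ) ≤ ⌈η * d i⌉₊ := by exact_mod_cast hD0
    have h4 : (⌈η * d i⌉₊ : ℝ) < η * d i + 1 := Nat.ceil_lt_add_one (by positivity)
    linarith
  have htotal : ((D.card * (n + 1) + ⌊(F.card : ℝ) * (δ * d i)⌋₊ * (N + 1) : ℕ) : ℝ) ≤
      η0 * d i := by
    push_cast
    have h1 : (⌊(F.card : ℝ) * (δ * d i)⌋₊ : ℝ) ≤ (F.card : ℝ) * (δ * d i) :=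
      Nat.floor_le (by positivity)
    rw [hF] at h1
    have h2 : (⌊(M : ℝ) * (δ * d i)⌋₊ : ℝ) * (N + 1) ≤ η0 / 4 * d i := by
      calc _ ≤ (M : ℝ) * (δ * d i) * (N + 1) :=
            mul_le_mul_of_nonneg_right h1 (by positivity)
        _ = (M : ℝ) * δ * (N + 1) * d i := by ring
        _ ≤ _ := mul_le_mul_of_nonneg_right hδM hdi'.le
    have h3 : (D.card : ℝ) * (n + 1) ≤ (3 * (η * d i) + 1) * (n + 1) :=
      mul_le_mul_of_nonneg_right hDcard (by positivity)
    have h4 : 3 * (η * d i) * ((n : ℝ) + 1) = η0 / 4 * d i := by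
      rw [hη]
      field_simp
      norm_num
    have h5 : ((n : ℝ) + 1) ≤ η0 / 4 * d i := by
      have h6 : 4 * ((n : ℝ) + 1) / η0 ≤ d i := hd0.trans (by exact_mod_cast hd0i)
      rw [div_le_iff₀ hη0] at h6
      linarith
    rw [hF]
    have h7 : 0 ≤ η0 * (d i : ℝ) := by positivity
    nlinarith
  rw [EReal.div_le_iff_le_mul (by exact_mod_cast hdi') (EReal.coe_ne_top _)]
  refine hw.trans ?_
  rw [← EReal.coe_mul, mul_comm (d i : ℝ) η0]
  exact EReal.coe_le_coe_iff.2 htotal

end Pool.Agent.Results.MP_8bee83_an.FiniteDimensional
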